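import Pool.Agent.Q231.Smo.Final

/-!
# MP_74c611_lc: the runtime bound of SMO-GP on ORDER is not tight

All notions are defined in `Pool/Agent/Q231/Smo/Defs.lean` (trees, ORDER, HVL-Prime, SMO-GP with
one application of HVL-Prime per iteration, `expectedTime`); `worstTime n T` is the supremum of
`expectedTime X` over the initial trees `X` with `T` leaves (`Pool/Agent/Q231/Smo/Final.lean`).
-/

namespace Pool.Agent.Results.MP_74c611_lc.NotTight

open Q231.Smo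

/-- SMO-GP on ORDER with `k = 1`.
(1) the worst-case expected optimization time is at most `1000 (T + n ^ 6)`;
(2) it is `o(n T + n ^ 2 log n)` for `n → ∞` along all pairs `(n, T)` with `T ≥ n ^ 6`;
(3) hence it is not `Ω(n T + n ^ 2 log n)`, not even for all large `n` and `T`. -/
theorem result :
    (∀ (n : ℕ) [NeZero n] (T : ℕ), worstTime n T ≤ ENNReal.ofReal (1000 * (T + n ^ 6))) ∧
    (∀ c : ℝ, 0 < c → ∃ n₀ : ℕ, ∀ (n : ℕ) [NeZero n], n₀ ≤ n → ∀ T : ℕ, n ^ 6 ≤ T →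
      worstTime n T < ENNReal.ofReal (c * (n * T + n ^ 2 * Real.log n))) ∧
    ¬ ∃ c : ℝ, 0 < c ∧ ∃ n₀ T₀ : ℕ, ∀ (n : ℕ) [NeZero n], n₀ ≤ n → ∀ T : ℕ, T₀ ≤ T →
      ENNReal.ofReal (c * (n * T + n ^ 2 * Real.log n)) ≤ worstTime n T := by
  refine ⟨fun n _ T => worstTime_le T, ?_, ?_⟩
  · intro c hc
    obtain ⟨n₀, h⟩ := worstTime_small c hc
    exact ⟨n₀, fun n inst hn T hT => h n inst hn T hT⟩
  · rintro ⟨c, hc, n₀, T₀, h⟩
    obtain ⟨n₁, h1⟩ := worstTime_small c hc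
    have inst : NeZero (n₀ + n₁ + 1) := ⟨by omega⟩
    exact absurd (h (n₀ + n₁ + 1) (by omega) (T₀ + (n₀ + n₁ + 1) ^ 6) (by omega))
      (not_le.2 (h1 (n₀ + n₁ + 1) inst (by omega) (T₀ + (n₀ + n₁ + 1) ^ 6) (by omega)))

end Pool.Agent.Results.MP_74c611_lc.NotTight
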